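import Pool.Agent.W425.ND.Stm

set_option autoImplicit false

namespace Pool.Agent.W240.ND

open MvPolynomial

/-- the power series of `exp (θ X)` -/
noncomputable def ex (θ : ℂ) : PowerSeries ℂ := PowerSeries.rescale θ (PowerSeries.exp ℂ)

theorem ex_add (a b : ℂ) : ex (a + b) = ex a * ex b :=
  (PowerSeries.exp_mul_exp_eq_exp_add a b).symm

theorem coeff_ex (θ : ℂ) (n : ℕ) : PowerSeries.coeff n (ex θ) = θ ^ n * (1 / (n.factorial : ℂ)) := by
  rw [ex, PowerSeries.coeff_rescale, PowerSeries.coeff_exp]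
  simp

theorem ex_zero : ex 0 = 1 := by
  ext n
  rw [coeff_ex, PowerSeries.coeff_one]
  rcases n with _ | n
  · simp
  · simp

theorem ex_pow (θ : ℂ) (n : ℕ) : ex θ ^ n = ex (n * θ) := by
  induction n with
  | zero => simp [ex_zero]
  | succ n ih => rw [pow_succ, ih, ← ex_add]; push_cast; ring_nf

theorem ex_sum {ι : Type} (s : Finset ι) (f : ι → ℂ) : ex (∑ i ∈ s, f i) = ∏ i ∈ s, ex (f i) := by
  classical
  induction s using Finset.induction_on with
  | empty => simp [ex_zero]
  | insert i s hi ih => rw [Finset.sum_insert hi, Finset.prod_insert hi, ex_add, ih]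

/-- the scaled coefficients -/
noncomputable def L : PowerSeries ℂ →ₗ[ℂ] (Multiplicative ℕ → ℂ) where
  toFun s n := (n.toAdd.factorial : ℂ) * PowerSeries.coeff n.toAdd s
  map_add' s t := by
    funext n
    simp [mul_add]
  map_smul' c s := by
    funext n
    simp only [map_smul, smul_eq_mul, RingHom.id_apply, Pi.smul_apply]
    ring

theorem ex_li : LinearIndependent ℂ ex := by
  apply LinearIndependent.of_comp L
  have h1 : (L ∘ ex) = (fun f : (Multiplicative ℕ →* ℂ) => (f : Multiplicative ℕ → ℂ)) ∘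
      (fun z : ℂ => powersHom ℂ z) := by
    funext z n
    show (n.toAdd.factorial : ℂ) * PowerSeries.coeff n.toAdd (ex z) = powersHom ℂ z n
    rw [coeff_ex, powersHom_apply]
    have : (n.toAdd.factorial : ℂ) ≠ 0 := by exact_mod_cast Nat.factorial_ne_zero _
    field_simp
  rw [h1]
  exact (linearIndependent_monoidHom (Multiplicative ℕ) ℂ).comp _ (powersHom ℂ).injective

theorem exists_theta (r : ℕ) : ∃ θ : Fin r → ℂ, LinearIndependent ℚ θ := by
  have h := Complex.rank_rat_complex
  have h1 : (r : Cardinal) ≤ Module.rank ℚ ℂ := by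
    rw [h]
    exact (Cardinal.natCast_lt_aleph0.trans_le Cardinal.aleph0_le_continuum).le
  let b := Module.Basis.ofVectorSpace ℚ ℂ
  have h2 : Cardinal.mk (Fin r) ≤ Cardinal.mk (Module.Basis.ofVectorSpaceIndex ℚ ℂ) := by
    rw [b.mk_eq_rank'']
    simpa using h1
  obtain ⟨e⟩ := h2
  exact ⟨b ∘ e, b.linearIndependent.comp _ e.injective⟩

theorem sum_inj {r : ℕ} {θ : Fin r → ℂ} (h : LinearIndependent ℚ θ) :
    Function.Injective (fun m : Fin r →₀ ℕ => ∑ j, (m j : ℂ) * θ j) := by
  intro m m' hm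
  have h1 : ∑ j, (((m j : ℚ) - (m' j : ℚ)) • θ j) = 0 := by
    have : ∑ j, (((m j : ℚ) - (m' j : ℚ)) • θ j) =
        ∑ j, (m j : ℂ) * θ j - ∑ j, (m' j : ℂ) * θ j := by
      rw [← Finset.sum_sub_distrib]
      refine Finset.sum_congr rfl fun j _ => ?_
      rw [← sub_mul, Rat.smul_def]
      push_cast
      ring
    rw [this]
    exact sub_eq_zero.mpr hm
  have h2 := Fintype.linearIndependent_iff.mp h _ h1
  ext j
  have h3 := h2 j
  have h4 : (m j : ℚ) = (m' j : ℚ) := sub_eq_zero.mp h3
  exact_mod_cast h4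

theorem ex_algInd {r : ℕ} {θ : Fin r → ℂ} (h : LinearIndependent ℚ θ) :
    AlgebraicIndependent ℂ (fun j => ex (θ j)) := by
  rw [algebraicIndependent_iff]
  intro p hp
  have hli : LinearIndependent ℂ (fun m : Fin r →₀ ℕ => ex (∑ j, (m j : ℂ) * θ j)) :=
    ex_li.comp _ (sum_inj h)
  have hp' : ∑ m ∈ p.support, coeff m p • ex (∑ j, (m j : ℂ) * θ j) = 0 := by
    rw [← hp, aeval_def, eval₂_eq']
    refine Finset.sum_congr rfl fun m _ => ?_
    rw [ex_sum, Algebra.smul_def]
    congr 1
    refine Finset.prod_congr rfl fun j _ => ?_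
    rw [ex_pow]
  have h3 := linearIndependent_iff'.mp hli p.support (fun m => coeff m p) hp'
  ext m
  rw [coeff_zero]
  by_cases hm : m ∈ p.support
  · exact h3 m hm
  · exact notMem_support_iff.mp hm

theorem algInd_translate {σ R A : Type} [CommRing R] [CommRing A] [Algebra R A] (x : σ → A)
    (b : σ → R) (h : AlgebraicIndependent R x) :
    AlgebraicIndependent R (fun j => x j + algebraMap R A (b j)) := by
  let φ : MvPolynomial σ R →ₐ[R] MvPolynomial σ R := aeval (fun j => X j + C (b j))
  let ψ : MvPolynomial σ R →ₐ[R] MvPolynomial σ R := aeval (fun j => X j - C (b j))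
  have h1 : ψ.comp φ = AlgHom.id R _ := by
    apply algHom_ext
    intro j
    simp [φ, ψ, aeval_X]
  have h2 : (aeval x).comp φ = aeval (fun j => x j + algebraMap R A (b j)) := by
    apply algHom_ext
    intro j
    simp [φ, aeval_X]
  have h3 : Function.Injective φ := by
    intro u v huv
    have := congrArg ψ huv
    rw [← AlgHom.comp_apply, ← AlgHom.comp_apply, h1] at this
    exact this
  show Function.Injective (aeval (fun j => x j + algebraMap R A (b j)))
  rw [← h2]
  exact (show Function.Injective (aeval x : MvPolynomial σ R →ₐ[R] A) from h).comp h3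

/-- Part EXP -/
theorem taskEXP : Pool.Agent.W425.ND.TaskEXP := by
  intro r a
  obtain ⟨θ, hθ⟩ := exists_theta r
  refine ⟨fun j => ex (θ j) + algebraMap ℂ (PowerSeries ℂ) (a j - 1), ?_,
    algInd_translate _ (fun j => a j - 1) (ex_algInd hθ)⟩
  intro j
  rw [map_add, ← PowerSeries.coeff_zero_eq_constantCoeff_apply, coeff_ex]
  simp

end Pool.Agent.W240.ND
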