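import Pool.Agent.W275.ND.Stm

/-! Project HE: periods of Hénon maps at a place of good reduction. -/

set_option autoImplicit false

namespace Pool.Agent.W240.ND.Hper

open Polynomial Pool.Agent.W275.ND

/-! ### integrality -/

theorem integral {A : Type} [CommRing A] [IsDomain A] [IsDiscreteValuationRing A] {K : Type}
    [Field K] [Algebra A K] [IsFractionRing A K] (F : Polynomial A) (δ : A)
    (h2 : 2 ≤ F.natDegree) (hF : IsUnit F.leadingCoeff) (y : ℕ → K)
    (hy : ∀ t, y (t + 2) = (F.map (algebraMap A K)).eval (y (t + 1)) - algebraMap A K δ * y t)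
    (n : ℕ) (hn : 0 < n) (hper : ∀ t, y (t + n) = y t) (t : ℕ) :
    ∃ a : A, algebraMap A K a = y t := by
  set v := ValuationRing.valuation A K with hv
  have hint : ∀ a : A, v (algebraMap A K a) ≤ 1 := by
    intro a
    exact (ValuationRing.mem_integer_iff A K _).2 ⟨a, rfl⟩
  obtain ⟨i0, _, hmax⟩ := Finset.exists_max_image (Finset.range n) (fun t => v (y t))
    ⟨0, Finset.mem_range.2 hn⟩
  have hP : Function.Periodic y n := hper
  have hM : ∀ t, v (y t) ≤ v (y i0) := by
    intro t
    rw [← hP.map_mod_nat t]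
    exact hmax _ (Finset.mem_range.2 (Nat.mod_lt _ hn))
  suffices h : v (y i0) ≤ 1 from
    (ValuationRing.mem_integer_iff A K _).1 ((hM t).trans h)
  by_contra hlt
  rw [not_le] at hlt
  obtain ⟨t1, ht1⟩ : ∃ t1, t1 + 1 = i0 + n := ⟨i0 + n - 1, by omega⟩
  have hyt : y (t1 + 1) = y i0 := by rw [ht1, hper]
  set M := v (y i0) with hMdef
  set d := F.natDegree with hd
  have hval : v ((F.map (algebraMap A K)).eval (y (t1 + 1))) ≤ M := by
    have h3 : (F.map (algebraMap A K)).eval (y (t1 + 1)) =
        y (t1 + 2) + algebraMap A K δ * y t1 := by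
      rw [hy t1]; ring
    rw [h3]
    refine Valuation.map_add_le _ (hM _) ?_
    rw [map_mul]
    exact (mul_le_mul' (hint δ) (hM t1)).trans (one_mul _).le
  have hlc : v (algebraMap A K F.leadingCoeff) = 1 := by
    refine le_antisymm (hint _) ?_
    obtain ⟨b, hb⟩ := hF.exists_right_inv
    have h3 : v (algebraMap A K F.leadingCoeff) * v (algebraMap A K b) = 1 := by
      rw [← map_mul, ← map_mul, hb, map_one, map_one]
    calc (1 : ValuationRing.ValueGroup A K) = v (algebraMap A K F.leadingCoeff) * v (algebraMap A K b) := h3.symm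
      _ ≤ v (algebraMap A K F.leadingCoeff) * 1 := mul_le_mul_right (hint b) _
      _ = v (algebraMap A K F.leadingCoeff) := mul_one _
  have hval2 : v ((F.map (algebraMap A K)).eval (y (t1 + 1))) = M ^ d := by
    rw [eval_map, eval₂_eq_sum_range, Finset.sum_range_succ, hyt]
    have hT : v (algebraMap A K (F.coeff F.natDegree) * y i0 ^ F.natDegree) = M ^ d := by
      rw [map_mul, map_pow, coeff_natDegree, hlc, one_mul]
    have hS : v (∑ x ∈ Finset.range F.natDegree, algebraMap A K (F.coeff x) * y i0 ^ x) ≤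
        M ^ (d - 1) := by
      refine Valuation.map_sum_le _ fun i hi => ?_
      rw [map_mul, map_pow]
      have hi' : i ≤ d - 1 := by
        have := Finset.mem_range.1 hi
        omega
      calc v (algebraMap A K (F.coeff i)) * M ^ i ≤ 1 * M ^ (d - 1) :=
            mul_le_mul' (hint _) (pow_le_pow_right₀ hlt.le hi')
        _ = M ^ (d - 1) := one_mul _
    have hlt2 : M ^ (d - 1) < M ^ d := pow_lt_pow_right₀ hlt (by omega)
    rw [Valuation.map_add_eq_of_lt_right _ (by rw [hT]; exact hS.trans_lt hlt2), hT]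
  rw [hval2] at hval
  have h3 : M ^ 1 < M ^ d := pow_lt_pow_right₀ hlt (by omega)
  rw [pow_one] at h3
  exact absurd hval (not_le.2 h3)

/-! ### the finite system -/

/-- the map on the residues and its derivative -/
def Gam {k : Type} [Field k] (f g : k → k) (d : k) (S : (k × k) × (k × k)) : (k × k) × (k × k) :=
  ((S.1.2, f S.1.2 - d * S.1.1), (S.2.2, g S.1.2 * S.2.2 - d * S.2.1))

theorem gam_inj {k : Type} [Field k] (f g : k → k) (d : k) (hd : d ≠ 0) :
    Function.Injective (Gam f g d) := by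
  rintro ⟨⟨x, y⟩, ⟨a, b⟩⟩ ⟨⟨x', y'⟩, ⟨a', b'⟩⟩ h
  simp only [Gam, Prod.mk.injEq] at h
  obtain ⟨⟨h1, h2⟩, h3, h4⟩ := h
  subst h1 h3
  have h5 : x = x' := by
    have : d * x = d * x' := by linear_combination -h2
    exact mul_left_cancel₀ hd this
  have h6 : a = a' := by
    have : d * a = d * a' := by linear_combination -h4
    exact mul_left_cancel₀ hd this
  rw [h5, h6]

theorem gam_iter {k : Type} [Field k] [Finite k] (f g : k → k) (d : k) (hd : d ≠ 0) (s : ℕ)
    (hs : Nat.card k ≤ s) : (Gam f g d)^[(s ^ 4).factorial] = id := by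
  classical
  have := Fintype.ofFinite k
  let e : Equiv.Perm ((k × k) × (k × k)) :=
    Equiv.ofBijective (Gam f g d) (Finite.injective_iff_bijective.1 (gam_inj f g d hd))
  have h1 : e ^ Fintype.card (Equiv.Perm ((k × k) × (k × k))) = 1 := pow_card_eq_one
  have h2 : Fintype.card (Equiv.Perm ((k × k) × (k × k))) = (Nat.card k ^ 4).factorial := by
    rw [Fintype.card_perm, Fintype.card_prod, Fintype.card_prod, Nat.card_eq_fintype_card]
    congr 1
    ring
  have h3 : Fintype.card (Equiv.Perm ((k × k) × (k × k))) ∣ (s ^ 4).factorial := by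
    rw [h2]
    exact Nat.factorial_dvd_factorial (Nat.pow_le_pow_left hs 4)
  obtain ⟨c, hc⟩ := h3
  have h4 : e ^ (s ^ 4).factorial = 1 := by rw [hc, pow_mul, h1, one_pow]
  have h5 : (⇑e)^[(s ^ 4).factorial] = ⇑(e ^ (s ^ 4).factorial) :=
    Equiv.Perm.iterate_eq_pow e _
  have h6 : (⇑e : (k × k) × (k × k) → (k × k) × (k × k)) = Gam f g d := rfl
  rw [h6, h4] at h5
  rw [h5]
  rfl

section core

variable {A : Type} [CommRing A] [IsDomain A] {π : A}
  {k : Type} [Field k] [Finite k] {φ : A →+* k}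

theorem per (s : ℕ) (hs : Nat.card k ≤ s) (F : Polynomial A) (δ : A) (hδ : φ δ ≠ 0) (Y : ℕ → A)
    (hY : ∀ t, Y (t + 2) = F.eval (Y (t + 1)) - δ * Y t) (u : ℕ → k)
    (hu : ∀ t, u (t + 2) = φ (F.derivative.eval (Y (t + 1))) * u (t + 1) - φ δ * u t) (t : ℕ) :
    φ (Y (t + (s ^ 4).factorial)) = φ (Y t) ∧ u (t + (s ^ 4).factorial) = u t := by
  set f : k → k := fun x => (F.map φ).eval x with hf
  set g : k → k := fun x => (F.derivative.map φ).eval x with hg
  set S : ℕ → (k × k) × (k × k) := fun t => ((φ (Y t), φ (Y (t + 1))), (u t, u (t + 1))) with hS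
  have h1 : ∀ t, Gam f g (φ δ) (S t) = S (t + 1) := by
    intro t
    simp only [Gam, hS, hf, hg, eval_map, eval₂_at_apply]
    rw [hu t, hY t, map_sub, map_mul]
  have h2 : ∀ m t, (Gam f g (φ δ))^[m] (S t) = S (t + m) := by
    intro m
    induction m with
    | zero => intro t; rfl
    | succ m ih =>
      intro t
      rw [Function.iterate_succ_apply', ih, h1]
      rfl
  have h3 := h2 (s ^ 4).factorial t
  rw [gam_iter f g (φ δ) hδ s hs] at h3
  simp only [id, hS, Prod.mk.injEq] at h3
  exact ⟨h3.1.1.symm, h3.2.1.symm⟩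

theorem coreH (hπ : Irreducible π) (hdv : ∀ a : A, a ≠ 0 → ∃ j : ℕ, ¬ π ^ (j + 1) ∣ a)
    (hφ : ∀ a, φ a = 0 ↔ π ∣ a) (p : ℕ) (hp : p.Prime)
    (hpp : π ∣ (p : A)) (s : ℕ) (hs : Nat.card k ≤ s) (F : Polynomial A) (δ : A) (hδ : IsUnit δ)
    (Y : ℕ → A) (hY : ∀ t, Y (t + 2) = F.eval (Y (t + 1)) - δ * Y t) (n a n' : ℕ)
    (hn : n = p ^ a * n') (hn' : ¬ p ∣ n') (hper : ∀ t, Y (t + n) = Y t) (t : ℕ) :
    Y (t + (s ^ 4).factorial * p ^ a) = Y t := by
  have hδ' : φ δ ≠ 0 := (hδ.map φ).ne_zero
  have hπφ : φ π = 0 := (hφ π).2 dvd_rfl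
  have hchar : CharP k p := by
    have h1 : (p : k) = 0 := by
      rw [← map_natCast φ p]
      exact (hφ _).2 hpp
    exact (CharP.charP_iff_prime_eq_zero hp).2 h1
  have hn'0 : (n' : k) ≠ 0 := by
    intro h
    exact hn' ((CharP.cast_eq_zero_iff k p n').1 h)
  set W := (s ^ 4).factorial with hW
  set V := W * p ^ a with hV
  have hmul : ∀ (m : ℕ) (t : ℕ), Y (t + n * m) = Y t := by
    intro m
    induction m with
    | zero => intro t; rfl
    | succ m ih =>
      intro t
      rw [Nat.mul_succ, ← add_assoc, hper, ih]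
  have hmulW : ∀ (u : ℕ → k), (∀ t, u (t + W) = u t) → ∀ m t, u (t + W * m) = u t := by
    intro u hu m
    induction m with
    | zero => intro t; rfl
    | succ m ih =>
      intro t
      rw [Nat.mul_succ, ← add_assoc, hu, ih]
  -- telescoping
  have htel : ∀ i t, Y (t + i * V) - Y t = ∑ l ∈ Finset.range i, (Y (t + l * V + V) - Y (t + l * V)) := by
    intro i t
    induction i with
    | zero => simp
    | succ i ih =>
      rw [Finset.sum_range_succ, ← ih, Nat.succ_mul, ← add_assoc]
      ring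
  have key : ∀ j t, π ^ (j + 1) ∣ Y (t + V) - Y t := by
    intro j
    induction j with
    | zero =>
      intro t
      rw [zero_add, pow_one, ← hφ, map_sub, sub_eq_zero]
      refine hmulW (fun t => φ (Y t)) (fun t => ?_) (p ^ a) t
      exact (per s hs F δ hδ' Y hY (fun _ => 0) (fun t => by simp) t).1
    | succ j ih =>
      choose U hU using ih
      have hπ0 : π ^ (j + 1) ≠ 0 := pow_ne_zero _ hπ.ne_zero
      have hφj : φ (π ^ (j + 1)) = 0 := by rw [map_pow, hπφ, zero_pow (by omega)]
      have hrec : ∀ t, φ (U (t + 2)) =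
          φ (F.derivative.eval (Y (t + 1))) * φ (U (t + 1)) - φ δ * φ (U t) := by
        intro t
        obtain ⟨κ, hκ⟩ := F.binomExpansion (Y (t + 1)) (π ^ (j + 1) * U (t + 1))
        have e1 : Y (t + 1 + V) = Y (t + 1) + π ^ (j + 1) * U (t + 1) := by
          rw [← hU (t + 1)]; ring
        have e2 : Y (t + V) = Y t + π ^ (j + 1) * U t := by
          rw [← hU t]; ring
        have e3 : Y (t + 2 + V) = F.eval (Y (t + 1 + V)) - δ * Y (t + V) := by
          have := hY (t + V)
          rw [show t + V + 2 = t + 2 + V by ring, show t + V + 1 = t + 1 + V by ring] at this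
          exact this
        have e4 := hU (t + 2)
        rw [e3, hY t, e1, e2, hκ] at e4
        have e5 : π ^ (j + 1) * U (t + 2) = π ^ (j + 1) * (F.derivative.eval (Y (t + 1)) * U (t + 1)
            - δ * U t + π ^ (j + 1) * (κ * U (t + 1) ^ 2)) := by
          rw [← e4]; ring
        have e6 := mul_left_cancel₀ hπ0 e5
        rw [e6, map_add, map_sub, map_mul, map_mul, map_mul, hφj, zero_mul, add_zero]
      have hUV : ∀ t, φ (U (t + V)) = φ (U t) := by
        intro t
        exact hmulW (fun t => φ (U t))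
          (fun t => (per s hs F δ hδ' Y hY (fun t => φ (U t)) hrec t).2) (p ^ a) t
      intro t
      have hUl : ∀ l, φ (U (t + l * V)) = φ (U t) := by
        intro l
        induction l with
        | zero => simp
        | succ l ihl => rw [Nat.succ_mul, ← add_assoc, hUV, ihl]
      have h1 := htel n' t
      have h2 : t + n' * V = t + n * W := by
        rw [hn, hV]; ring
      rw [h2, hmul W t, sub_self] at h1
      rw [Finset.sum_congr rfl fun l _ => hU (t + l * V), ← Finset.mul_sum] at h1
      have h3 : ∑ l ∈ Finset.range n', U (t + l * V) = 0 := by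
        rcases mul_eq_zero.1 h1.symm with h | h
        · exact absurd h hπ0
        · exact h
      have h4 := congrArg φ h3
      rw [map_sum, map_zero, Finset.sum_congr rfl fun l _ => hUl l, Finset.sum_const,
        Finset.card_range, nsmul_eq_mul] at h4
      have h5 : φ (U t) = 0 := by
        rcases mul_eq_zero.1 h4 with h | h
        · exact absurd h hn'0
        · exact h
      obtain ⟨c, hc⟩ := (hφ _).1 h5
      exact ⟨c, by rw [hU t, hc, pow_succ π (j + 1)]; ring⟩
  by_contra hne
  obtain ⟨j, hj⟩ := hdv _ (sub_ne_zero.2 hne)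
  exact hj (key j t)

end core

theorem main : S_hper := by
  intro p D hp
  refine ⟨((p ^ D) ^ 4).factorial, Nat.factorial_pos _, ?_⟩
  intro A _ _ _ K _ _ _ π hπ hpp hfin hcard F δ hd hF hδ y hy hn
  obtain ⟨n, hn0, hper⟩ := hn
  choose Y hYy using integral F δ hd hF y hy n hn0 hper
  have hinj : Function.Injective (algebraMap A K) := IsFractionRing.injective A K
  have hY : ∀ t, Y (t + 2) = F.eval (Y (t + 1)) - δ * Y t := by
    intro t
    apply hinj
    rw [hYy, hy t, ← hYy (t + 1), ← hYy t, eval_map, eval₂_at_apply, map_sub, map_mul]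
  have hYper : ∀ t, Y (t + n) = Y t := by
    intro t
    apply hinj
    rw [hYy, hYy, hper]
  obtain ⟨a, n', hn', hnn⟩ := Nat.exists_eq_pow_mul_and_not_dvd hn0.ne' p hp.ne_one
  have hmax : (Ideal.span {π}).IsMaximal := by
    exact PrincipalIdealRing.isMaximal_of_irreducible hπ
  let _ : Field (A ⧸ Ideal.span {π}) := Ideal.Quotient.field _
  have hdv : ∀ a : A, a ≠ 0 → ∃ j : ℕ, ¬ π ^ (j + 1) ∣ a := by
    intro a ha
    exact FiniteMultiplicity.of_not_isUnit hπ.not_isUnit ha
  refine ⟨a, fun t => ?_⟩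
  rw [← hYy, ← hYy]
  congr 1
  exact coreH hπ hdv (φ := Ideal.Quotient.mk (Ideal.span {π}))
    (fun a => by rw [Ideal.Quotient.eq_zero_iff_mem, Ideal.mem_span_singleton]) p hp hpp (p ^ D)
    hcard F δ hδ Y hY n a n' hnn hn' hYper t

end Pool.Agent.W240.ND.Hper
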